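import Pool.Agent.H12R3.VR.Stmts

set_option autoImplicit false

/-!
# Project H12-VR, TaskConst
-/

namespace Pool.Agent.H858V.VR

open H12VR

theorem taskConst : H12VR.TaskConst := by
  intro f I n c c' N hI hconn hne hnu hfn hc hc' hcc hRel hAut him x
  obtain ⟨hR1, hR2, hR3⟩ := hRel
  obtain ⟨_, hA, _⟩ := hAut
  obtain ⟨x0, hx0⟩ := hne
  obtain ⟨ε, hε, hball⟩ := Metric.isOpen_iff.1 hI x0 hx0
  have hx1 : x0 + ε / 2 ∈ I := hball (by
    rw [Metric.mem_ball, Real.dist_eq, show x0 + ε / 2 - x0 = ε / 2 by ring,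
      abs_of_pos (by linarith)]
    linarith)
  have hmem : ∀ z ∈ I, ax N z (f z) ∈ I := by
    intro z hz
    have h1 : (fun x => ax N x (f x)) z ∈ (fun x => ax N x (f x)) '' I := ⟨z, hz, rfl⟩
    rw [him] at h1
    exact h1
  have key : ∀ z ∈ I, n = N 3 * z + N 4 * n + N 5 := by
    intro z hz
    have h2 := hA z
    rw [hfn _ (hmem z hz), hfn z hz] at h2
    exact h2
  have e0 := key x0 hx0
  have e1 := key (x0 + ε / 2) hx1
  have h3 : N 3 = 0 := by
    have h : N 3 * (ε / 2) = 0 := by
      rw [mul_add] at e1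
      linarith
    rcases mul_eq_zero.1 h with h | h
    · exact h
    · linarith
  rw [h3] at hR1 hR3 e0
  have hN0 : N 0 ^ 2 = 1 := by linarith
  have hN0' : N 0 ≠ 0 := by
    intro h
    rw [h] at hN0
    norm_num at hN0
  have hN1 : N 1 = 0 := by
    have h : N 0 * N 1 = 0 := by linarith
    rcases mul_eq_zero.1 h with h | h
    · exact absurd h hN0'
    · exact h
  rw [hN1] at hR2
  have hN4 : c' ^ 2 * N 4 ^ 2 = c ^ 2 := by linarith
  have hN4' : N 4 ^ 2 ≠ 1 := by
    intro h
    rw [h] at hN4
    have h5 : (c - c') * (c + c') = 0 := by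
      have : (c - c') * (c + c') = c ^ 2 - c' ^ 2 := by ring
      rw [this]
      linarith
    rcases mul_eq_zero.1 h5 with h6 | h6
    · exact hcc (by linarith)
    · linarith
  have hax : ∀ z, ax N z (f z) = N 0 * z + N 2 := by
    intro z
    unfold ax
    rw [hN1]
    ring
  have hf : ∀ z, f (N 0 * z + N 2) = n + N 4 * (f z - n) := by
    intro z
    have h := hA z
    rw [hax z] at h
    rw [h]
    unfold ay
    rw [h3]
    linarith
  obtain ⟨s, hs⟩ : ∃ s, s = (N 0 + 1) * N 2 := ⟨_, rfl⟩
  have e : ∀ z, N 0 * (N 0 * z + N 2) + N 2 = z + s := by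
    intro z
    have h : N 0 * (N 0 * z + N 2) + N 2 = N 0 ^ 2 * z + (N 0 + 1) * N 2 := by ring
    rw [h, hN0, one_mul, hs]
  have hff : ∀ z, f (z + s) = n + N 4 ^ 2 * (f z - n) := by
    intro z
    have h1 := hf (N 0 * z + N 2)
    rw [hf z, e z] at h1
    rw [h1]
    ring
  have hadd : ∀ z ∈ I, z + s ∈ I := by
    intro z hz
    have h1 := hmem z hz
    rw [hax z] at h1
    have h2 := hmem _ h1
    rw [hax, e z] at h2
    exact h2
  have hsub : ∀ w ∈ I, w - s ∈ I := by
    intro w hw
    rw [← him] at hw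
    obtain ⟨z, hz, hzw⟩ := hw
    rw [← him] at hz
    obtain ⟨z', hz', hz'z⟩ := hz
    have h1 : N 0 * z' + N 2 = z := by
      rw [← hax z']
      exact hz'z
    have h2 : N 0 * z + N 2 = w := by
      rw [← hax z]
      exact hzw
    have h3 : z' + s = w := by
      rw [← e z', h1, h2]
    rw [← h3, add_sub_cancel_right]
    exact hz'
  by_cases hs0 : s = 0
  · have h1 := hff x
    rw [hs0, add_zero] at h1
    have h2 : (1 - N 4 ^ 2) * (f x - n) = 0 := by
      have : (1 - N 4 ^ 2) * (f x - n) = f x - (n + N 4 ^ 2 * (f x - n)) := by ring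
      rw [this, ← h1]
      ring
    rcases mul_eq_zero.1 h2 with h3 | h3
    · exact absurd (by linarith) hN4'
    · linarith
  · exfalso
    apply hnu
    rw [Set.eq_univ_iff_forall]
    intro y
    have hk : ∀ k : ℕ, x0 + k * s ∈ I ∧ x0 - k * s ∈ I := by
      intro k
      induction k with
      | zero =>
        constructor
        · simpa using hx0
        · simpa using hx0
      | succ k ih =>
        constructor
        · have h1 := hadd _ ih.1
          have h2 : x0 + (k : ℝ) * s + s = x0 + ((k + 1 : ℕ) : ℝ) * s := by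
            push_cast
            ring
          rw [h2] at h1
          exact h1
        · have h1 := hsub _ ih.2
          have h2 : x0 - (k : ℝ) * s - s = x0 - ((k + 1 : ℕ) : ℝ) * s := by
            push_cast
            ring
          rw [h2] at h1
          exact h1
    obtain ⟨k, hk'⟩ := exists_nat_gt (|y - x0| / |s|)
    have hsp : 0 < |s| := abs_pos.2 hs0
    rw [div_lt_iff₀ hsp] at hk'
    have h1 := abs_lt.1 hk'
    rcases lt_or_gt_of_ne hs0 with hneg | hpos
    · rw [abs_of_neg hneg] at h1
      refine hconn.out (hk k).1 (hk k).2 ⟨?_, ?_⟩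
      · have := h1.1
        linarith
      · have := h1.2
        linarith
    · rw [abs_of_pos hpos] at h1
      refine hconn.out (hk k).2 (hk k).1 ⟨?_, ?_⟩
      · have := h1.1
        linarith
      · have := h1.2
        linarith

end Pool.Agent.H858V.VR
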